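import Mathlib
import Pool.Agent.Lib.MP_d2b9e5_an.FsGlue

set_option autoImplicit false

namespace Pool.Agent.Results.MP_d2b9e5_an.FiniteSupport

/-- `(e, f)` is a `c`-norming Markushevich basis of `X`. -/
def IsNormingMBasis {X : Type} [NormedAddCommGroup X] [NormedSpace ℝ X] {I : Type} (c : ℝ)
    (e : I → X) (f : I → (X →L[ℝ] ℝ)) : Prop :=
  (∀ i j : I, (i = j → f j (e i) = 1) ∧ (i ≠ j → f j (e i) = 0)) ∧
  (Submodule.span ℝ (Set.range e)).topologicalClosure = ⊤ ∧
  (∀ v : X, (∀ i, f i v = 0) → v = 0) ∧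
  ∀ v : X, ∀ t : ℝ, t < c * ‖v‖ → ∃ φ ∈ Submodule.span ℝ (Set.range f), ‖φ‖ ≤ 1 ∧ t < |φ v|

/-- The family `x` is linearly dense, and the bounded functionals that vanish on all but finitely
many members of `x` are `c`-norming. No biorthogonality or independence is asked. -/
def FinitelySupportedNorming {X : Type} [NormedAddCommGroup X] [NormedSpace ℝ X] {Γ : Type}
    (c : ℝ) (x : Γ → X) : Prop :=
  (Submodule.span ℝ (Set.range x)).topologicalClosure = ⊤ ∧
  ∀ v : X, ∀ t : ℝ, t < c * ‖v‖ →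
    ∃ φ : X →L[ℝ] ℝ, {g : Γ | φ (x g) ≠ 0}.Finite ∧ ‖φ‖ ≤ 1 ∧ t < |φ v|

/-- A real normed space has a `c`-norming Markushevich basis exactly when some linearly dense
family has `c`-norming finitely supported functionals. -/
theorem result (X : Type) [NormedAddCommGroup X] [NormedSpace ℝ X] (c : ℝ) (hc : 0 < c) :
    (∃ (I : Type) (e : I → X) (f : I → (X →L[ℝ] ℝ)), IsNormingMBasis c e f) ↔
      ∃ (Γ : Type) (x : Γ → X), FinitelySupportedNorming c x := by
  constructor
  · rintro ⟨I, e, f, h1, h2, _, h4⟩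
    refine ⟨I, e, h2, fun v t ht => ?_⟩
    obtain ⟨φ, hφ, h5, h6⟩ := h4 v t ht
    refine ⟨φ, ?_, h5, h6⟩
    have hle : Submodule.span ℝ (Set.range f) ≤ Pool.Agent.Lib.MP_d2b9e5_an.Fs.finIn e Set.univ := by
      refine Submodule.span_le.2 ?_
      rintro _ ⟨j, rfl⟩
      refine ⟨(Set.finite_singleton j).subset fun i hi => ?_, Set.subset_univ _⟩
      by_contra hne
      exact hi ((h1 i j).2 hne)
    exact (hle hφ).1
  · rintro ⟨Γ, x, hd, hn⟩
    obtain ⟨S, hB, hE, hW⟩ := Pool.Agent.Lib.MP_d2b9e5_an.Fs.exists_system hd hc hn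
    have r1 : Set.range (fun p : S => p.1.1) = Prod.fst '' S := by
      ext u
      simp
    have r2 : Set.range (fun p : S => p.1.2) = Prod.snd '' S := by
      ext u
      simp
    have hnorm : ∀ v : X, ∀ t : ℝ, t < c * ‖v‖ →
        ∃ φ ∈ Submodule.span ℝ (Set.range fun p : S => p.1.2), ‖φ‖ ≤ 1 ∧ t < |φ v| := by
      intro v t ht
      obtain ⟨φ, h1, h2, h3⟩ := hn v t ht
      refine ⟨φ, ?_, h2, h3⟩
      rw [r2, hW]
      exact ⟨h1, Set.subset_univ _⟩
    refine ⟨S, fun p => p.1.1, fun p => p.1.2, ?_, ?_, ?_, hnorm⟩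
    · intro p q
      exact ⟨fun h => (hB p.1 p.2 q.1 q.2).1 (congrArg Subtype.val h),
        fun h => (hB p.1 p.2 q.1 q.2).2 fun h2 => h (Subtype.ext h2)⟩
    · rw [r1, hE]
      exact hd
    · intro v hv
      by_contra hne
      obtain ⟨φ, h1, _, h3⟩ := hnorm v 0 (mul_pos hc (norm_pos_iff.2 hne))
      have h0 : φ v = 0 := by
        refine Submodule.span_induction (p := fun φ _ => φ v = 0) ?_ ?_ ?_ ?_ h1
        · rintro _ ⟨p, rfl⟩
          exact hv p
        · simp
        · intro a b _ _ ha hb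
          simp [ha, hb]
        · intro r a _ ha
          simp [ha]
      rw [h0, abs_zero] at h3
      exact lt_irrefl _ h3

end Pool.Agent.Results.MP_d2b9e5_an.FiniteSupport
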