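import Mathlib
import Pool.Agent.Lib.MP_d2b9e5_an.BasisOne

set_option autoImplicit false

namespace Pool.Agent.Results.MP_d2b9e5_an.OneNorming

/-- The first uncountable ordinal as a well-ordered type. -/
abbrev Omega1 : Type := (Ordinal.omega.{0} 1).ToType

/-- Ordinal metrics: conditions (ρ1) to (ρ4), for `ρ` on pairs `α < β`. -/
def IsOrdinalMetric (ρ : Omega1 → Omega1 → ℕ) : Prop :=
  (∀ α β γ, α < β → β < γ → ρ α γ ≤ max (ρ α β) (ρ β γ)) ∧
  (∀ α β γ, α < β → β < γ → ρ α β ≤ max (ρ α γ) (ρ β γ)) ∧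
  (∀ α β, α < β → 0 < ρ α β) ∧
  (∀ α β γ, α < β → β < γ → ρ α γ ≠ ρ β γ)

/-- The indicator function of `F_n(α) = {ξ ≤ α : ρ(ξ, α) ≤ n}`, with `ρ(α, α) = 0`. -/
noncomputable def indicatorF (ρ : Omega1 → Omega1 → ℕ) (n : ℕ) (α : Omega1) : Omega1 → Bool :=
  fun ξ => decide (ξ ≤ α ∧ (ξ = α ∨ ρ ξ α ≤ n))

/-- The compact space `K_ρ`: the closure of the sets `F_n(α)` in the Cantor cube. -/
def Krho (ρ : Omega1 → Omega1 → ℕ) : Set (Omega1 → Bool) :=
  closure (Set.range fun p : ℕ × Omega1 => indicatorF ρ p.1 p.2)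

/-- `(x, f)` is a `1`-norming Markushevich basis of `X`. -/
def IsOneNormingMBasis {X : Type} [NormedAddCommGroup X] [NormedSpace ℝ X] {I : Type}
    (x : I → X) (f : I → (X →L[ℝ] ℝ)) : Prop :=
  (∀ i j : I, (i = j → f j (x i) = 1) ∧ (i ≠ j → f j (x i) = 0)) ∧
  (Submodule.span ℝ (Set.range x)).topologicalClosure = ⊤ ∧
  (∀ v : X, (∀ i, f i v = 0) → v = 0) ∧
  ∀ v : X, ∀ t : ℝ, t < ‖v‖ → ∃ φ ∈ Submodule.span ℝ (Set.range f), ‖φ‖ ≤ 1 ∧ t < |φ v|

/-- For every ordinal metric `ρ` the space `C(K_ρ)` has a `1`-norming Markushevich basis. -/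
theorem result (ρ : Omega1 → Omega1 → ℕ) (h : IsOrdinalMetric ρ) :
    ∃ (I : Type) (x : I → BoundedContinuousFunction (Krho ρ) ℝ)
      (f : I → (BoundedContinuousFunction (Krho ρ) ℝ →L[ℝ] ℝ)), IsOneNormingMBasis x f := by
  have hW : ¬ (Set.univ : Set Omega1).Countable := by
    rw [← Cardinal.le_aleph0_iff_set_countable, Cardinal.mk_univ, Cardinal.mk_toType,
      Ordinal.card_omega, not_le]
    exact Cardinal.aleph0_lt_aleph_one
  have hIio : ∀ a : Omega1, (Set.Iio a).Countable := by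
    intro a
    rw [← Cardinal.le_aleph0_iff_set_countable, ← Order.lt_succ_iff, Cardinal.succ_aleph0]
    have key : ∀ o : Ordinal.{0}, o = (Cardinal.aleph 1).ord → ∀ i : o.ToType,
        Cardinal.mk (Set.Iio i) < Cardinal.aleph 1 := by
      rintro o rfl i
      exact Cardinal.mk_Iio_toType_ord_lt i
    exact key _ (Cardinal.ord_aleph 1).symm a
  have hρ : ∀ α β γ : Omega1, α < β → β < γ →
      ρ α γ ≤ max (ρ α β) (ρ β γ) ∧ ρ α β ≤ max (ρ α γ) (ρ β γ) ∧ 0 < ρ α β ∧ ρ α γ ≠ ρ β γ :=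
    fun α β γ h1 h2 => ⟨h.1 α β γ h1 h2, h.2.1 α β γ h1 h2, h.2.2.1 α β h1, h.2.2.2 α β γ h1 h2⟩
  set K := Krho ρ with hK0
  have hK : K = closure (Set.range (fun p : ℕ × Omega1 =>
      fun ξ : Omega1 => decide (ξ ≤ p.2 ∧ (ξ = p.2 ∨ ρ ξ p.2 ≤ p.1)))) := rfl
  unfold IsOneNormingMBasis
  classical
  have hnomax : ∀ a : Omega1, ∃ b, a < b := by
    intro a
    by_contra hcon
    push Not at hcon
    apply hW
    refine ((hIio a).insert a).mono fun b _ => ?_
    rcases (hcon b).eq_or_lt with h | h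
    · exact Or.inl h
    · exact Or.inr h
  have hpos : ∀ a b : Omega1, a < b → 0 < ρ a b := by
    intro a b hab
    obtain ⟨c, hc⟩ := hnomax b
    exact (hρ a b c hab hc).2.2.1
  have hfin : ∀ (n : ℕ) (α : Omega1), {ξ : Omega1 | ξ ≤ α ∧ (ξ = α ∨ ρ ξ α ≤ n)}.Finite := by
    intro n α
    have h1 : {ξ : Omega1 | ξ < α ∧ ρ ξ α ≤ n}.Finite := by
      refine Set.Finite.of_finite_image (f := fun ξ => ρ ξ α) ((Set.finite_Iic n).subset ?_) ?_
      · rintro _ ⟨ξ, hξ, rfl⟩
        exact hξ.2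
      · intro a ha b hb hab
        rcases lt_trichotomy a b with h | h | h
        · exact absurd hab (hρ a b α h hb.1).2.2.2
        · exact h
        · exact absurd hab.symm (hρ b a α h ha.1).2.2.2
    refine (h1.insert α).subset ?_
    rintro ξ ⟨h2, h3⟩
    rcases h2.eq_or_lt with h | h
    · exact Or.inl h
    · exact Or.inr ⟨h, h3.resolve_left h.ne⟩
  let Fs : ℕ → Omega1 → Finset Omega1 := fun n α => (hfin n α).toFinset
  have hFs : ∀ n α ξ, ξ ∈ Fs n α ↔ ξ ≤ α ∧ (ξ = α ∨ ρ ξ α ≤ n) := by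
    intro n α ξ
    simp only [Fs, Set.Finite.mem_toFinset, Set.mem_ofPred_eq]
  have hpt : ∀ n α, Pool.Agent.Lib.MP_d2b9e5_an.pt (Fs n α) =
      fun ξ : Omega1 => decide (ξ ≤ α ∧ (ξ = α ∨ ρ ξ α ≤ n)) := by
    intro n α
    funext ξ
    simp only [Pool.Agent.Lib.MP_d2b9e5_an.pt, hFs]
  have hmem : ∀ n α, Pool.Agent.Lib.MP_d2b9e5_an.pt (Fs n α) ∈ K := by
    intro n α
    rw [hK, hpt]
    exact subset_closure ⟨(n, α), rfl⟩
  refine Pool.Agent.Lib.MP_d2b9e5_an.norming_basis_one K (hK ▸ isClosed_closure)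
    (fun F => Pool.Agent.Lib.MP_d2b9e5_an.pt F ∈ K) (fun F h => h) ?_ ?_
  · intro A hA
    rw [hK] at hA
    refine closure_mono ?_ hA
    rintro _ ⟨⟨n, α⟩, rfl⟩
    exact ⟨Fs n α, hmem n α, hpt n α⟩
  · intro a
    rcases a.eq_empty_or_nonempty with rfl | hne
    · refine ⟨∅, ?_, fun A _ => Iff.rfl⟩
      have hinf : Infinite Omega1 := by
        by_contra hcon
        rw [not_infinite_iff_finite] at hcon
        exact hW (Set.to_countable _)
      rw [hK]
      refine mem_closure_of_tendsto (b := Filter.cofinite)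
        (f := fun α : Omega1 => fun ξ : Omega1 => decide (ξ ≤ α ∧ (ξ = α ∨ ρ ξ α ≤ 0))) ?_
        (Filter.Eventually.of_forall fun α => ⟨(0, α), rfl⟩)
      rw [tendsto_pi_nhds]
      intro ξ
      refine tendsto_const_nhds.congr' ?_
      filter_upwards [Filter.eventually_cofinite_ne ξ] with α hα
      have h1 : ¬ (ξ ≤ α ∧ (ξ = α ∨ ρ ξ α ≤ 0)) := by
        rintro ⟨h2, h3 | h3⟩
        · exact hα h3.symm
        · exact absurd (hpos ξ α (lt_of_le_of_ne h2 (Ne.symm hα))) (not_lt.2 h3)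
      simp only [Pool.Agent.Lib.MP_d2b9e5_an.pt, Finset.notMem_empty, h1]
    · let β := a.max' hne
      let m := (a.filter (· < β)).sup (fun ξ => ρ ξ β)
      refine ⟨Fs m β, hmem m β, fun A hA => ⟨?_, fun h ξ hξ => h ξ ?_⟩⟩
      · have hop : IsOpen {A : Omega1 → Bool | ∀ ξ ∈ a, A ξ = true} := by
          have : {A : Omega1 → Bool | ∀ ξ ∈ a, A ξ = true} = ⋂ ξ ∈ a, (fun A : Omega1 → Bool => A ξ) ⁻¹' {true} := by
            ext A
            simp
          rw [this]
          exact isOpen_biInter_finset fun ξ _ => (isOpen_discrete _).preimage (continuous_apply ξ)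
        have hcl : IsClosed {A : Omega1 → Bool | ∀ ξ ∈ Fs m β, A ξ = true} := by
          have : {A : Omega1 → Bool | ∀ ξ ∈ Fs m β, A ξ = true} =
              ⋂ ξ ∈ Fs m β, (fun A : Omega1 → Bool => A ξ) ⁻¹' {true} := by
            ext A
            simp
          rw [this]
          exact isClosed_biInter fun ξ _ => (isClosed_discrete _).preimage (continuous_apply ξ)
        have hcl2 := isClosed_imp hop hcl
        rw [hK] at hA
        refine hcl2.closure_subset_iff.2 ?_ hA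
        rintro _ ⟨⟨n, α⟩, rfl⟩
        simp only [Set.mem_ofPred_eq, decide_eq_true_eq]
        intro h
        have hβ := h β (a.max'_mem hne)
        have hmn : m ≤ n := by
          refine Finset.sup_le fun η hη => ?_
          rw [Finset.mem_filter] at hη
          have hη2 := h η hη.1
          have hηα : η < α := hη.2.trans_le hβ.1
          have h4 : ρ η α ≤ n := hη2.2.resolve_left hηα.ne
          rcases hβ.1.eq_or_lt with h5 | h5
          · show ρ η β ≤ n
            have h6 : β = α := h5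
            rw [h6]
            exact h4
          · exact (hρ η β α hη.2 h5).2.1.trans (max_le h4 (hβ.2.resolve_left h5.ne))
        intro ξ hξ
        rw [hFs] at hξ
        rcases hξ.1.eq_or_lt with h7 | h7
        · rw [h7]
          exact hβ
        · have h8 : ρ ξ β ≤ n := (hξ.2.resolve_left h7.ne).trans hmn
          refine ⟨hξ.1.trans hβ.1, Or.inr ?_⟩
          rcases hβ.1.eq_or_lt with h5 | h5
          · have h6 : β = α := h5
            rw [← h6]
            exact h8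
          · exact (hρ ξ β α h7 h5).1.trans (max_le h8 (hβ.2.resolve_left h5.ne))
      · rw [hFs]
        have h1 : ξ ≤ β := a.le_max' ξ hξ
        refine ⟨h1, ?_⟩
        rcases h1.eq_or_lt with h2 | h2
        · exact Or.inl h2
        · exact Or.inr (Finset.le_sup (f := fun ξ => ρ ξ β) (Finset.mem_filter.2 ⟨hξ, h2⟩))

end Pool.Agent.Results.MP_d2b9e5_an.OneNorming
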